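import Pool.Agent.Helper218.Ex4

set_option autoImplicit false

namespace Pool.Agent.Results.MP_ddb4d7_al.CentralFrattini

open Pool.Agent.Helper218

open scoped commutatorElement

/-- A Fitting class: a nonempty class `X` of finite soluble groups, closed under isomorphisms,
normal subgroups, and products of two normal subgroups (of an arbitrary finite group). -/
structure IsFittingClass (X : (G : Type) → [Group G] → Prop) : Prop where
  nonempty : ∃ (G : Type) (_ : Group G), X G
  finite : ∀ (G : Type) [Group G], X G → Finite G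
  soluble : ∀ (G : Type) [Group G], X G → Group.IsSolvable G
  iso : ∀ (G H : Type) [Group G] [Group H], Nonempty (G ≃* H) → X G → X H
  normal : ∀ (G : Type) [Group G] (N : Subgroup G), N.Normal → X G → X ↥N
  product : ∀ (G : Type) [Group G] [Finite G] (N₁ N₂ : Subgroup G), N₁.Normal → N₂.Normal →
    X ↥N₁ → X ↥N₂ → X ↥(N₁ ⊔ N₂)

/-- A group is metanilpotent if it has a nilpotent normal subgroup with nilpotent quotient. -/
def IsMetanilpotent (G : Type) [Group G] : Prop :=
  ∃ (N : Subgroup G) (_ : N.Normal), Group.IsNilpotent ↥N ∧ Group.IsNilpotent (G ⧸ N)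

/-- a central subgroup of the derived subgroup lies in every maximal subgroup -/
theorem le_frattini {G : Type} [Group G] (Z : Subgroup G) (hZ : Z ≤ Subgroup.center G)
    (hZ' : Z ≤ _root_.commutator G) : Z ≤ frattini G := by
  have key : ∀ M : Subgroup G, IsCoatom M → Z ≤ M := by
    intro M hM
    by_contra hcon
    have h1 : M ⊔ Z = ⊤ := by
      rcases hM.le_iff.1 (le_sup_left : M ≤ M ⊔ Z) with h | h
      · exact h
      · exfalso
        apply hcon
        rw [← h]
        exact le_sup_right
    have hZn : Z.Normal := ⟨fun z hz g => by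
      have := Subgroup.mem_center_iff.1 (hZ hz) g
      rw [this, mul_assoc, mul_inv_cancel, mul_one]
      exact hz⟩
    have h2 : _root_.commutator G ≤ M := by
      rw [_root_.commutator_def, Subgroup.commutator_le]
      intro a _ b _
      have ha : a ∈ M ⊔ Z := by rw [h1]; trivial
      have hb : b ∈ M ⊔ Z := by rw [h1]; trivial
      rw [Subgroup.mem_sup_of_normal_right] at ha hb
      obtain ⟨x, hx, z, hz, rfl⟩ := ha
      obtain ⟨y, hy, w, hw, rfl⟩ := hb
      have hz' := fun g => Subgroup.mem_center_iff.1 (hZ hz) g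
      have hw' := fun g => Subgroup.mem_center_iff.1 (hZ hw) g
      have e1 : ⁅x * z, y * w⁆ = ⁅x, y⁆ := by
        rw [comm_mul_left', (comm_eq_one_iff (a := z)).2 (hz' _).symm, mul_one, mul_inv_cancel,
          one_mul, comm_mul_right', (comm_eq_one_iff (b := w)).2 (hw' _), mul_one, mul_inv_cancel,
          mul_one]
      rw [e1]
      exact comm_mem hx hy
    exact hcon (hZ'.trans h2)
  exact le_iInf₂ (fun M hM => key M hM)

/-- There are a finite metanilpotent group `G`, a subgroup `Z` of the intersection of the centre and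
the Frattini subgroup of `G`, and a Fitting class `X` of finite soluble groups, such that `G ⧸ Z` is
in `X` but `G` is not. -/
theorem result :
    ∃ (G : Type) (_ : Group G) (_ : Finite G) (Z : Subgroup G) (_ : Z.Normal)
      (X : (G : Type) → [Group G] → Prop),
      IsMetanilpotent G ∧ Z ≤ Subgroup.center G ⊓ frattini G ∧ IsFittingClass X ∧
        X (G ⧸ Z) ∧ ¬ X G := by
  refine ⟨BigB, inferInstance, inferInstance, (quo 0).ker, inferInstance,
    fun G _ => Cls 7 3 1 G, ?_, ?_, ?_, ?_, BigB_not_cls⟩
  · have h : Cls 7 3 2 BigB := B.cls (lam := (LinearMap.id : F49 →ₗ[ZMod 7] F49)) inferInstance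
      Function.surjective_id card_F49
    obtain ⟨R, _, hR2, hR3, hR4⟩ := h.rad
    have hRn : R.Normal := ⟨fun x hx g => hR2 g (Subgroup.mem_top _) x hx⟩
    refine ⟨R, hRn, ?_, ?_⟩
    · have hRp : IsPGroup 7 R := by
        intro x
        obtain ⟨n, hn⟩ := hR3 x.1 x.2
        exact ⟨n, Subtype.ext (by simpa using hn)⟩
      exact hRp.isNilpotent
    · have hQ : IsPGroup 3 (BigB ⧸ R) := by
        intro x
        induction x using QuotientGroup.induction_on with
        | H x =>
          obtain ⟨n, hn⟩ := hR4 x (Subgroup.mem_top _)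
          exact ⟨n, by rw [← QuotientGroup.mk_pow, QuotientGroup.eq_one_iff]; exact hn⟩
      exact hQ.isNilpotent
  · have hform : ∀ x ∈ (quo 0).ker, x = ⟨1, 0, 0, x.c⟩ := by
      intro x hx
      have h := (B.mem_mapC_ker _ _).1 hx
      exact B.ext h.1 h.2.1 h.2.2.1 rfl
    have hcen : (quo 0).ker ≤ Subgroup.center BigB := by
      intro x hx
      rw [Subgroup.mem_center_iff, hform x hx]
      intro k
      exact B.cen _ _
    refine le_inf hcen (le_frattini _ hcen ?_)
    intro x hx
    have h1 : x = ⁅(⟨1, 1, 0, 0⟩ : BigB), ⟨1, 0, x.c, 0⟩⁆ := by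
      rw [B.comm_P rfl rfl, hform x hx]
      simp
    rw [h1]
    exact Subgroup.commutator_mem_commutator (Subgroup.mem_top _) (Subgroup.mem_top _)
  · exact
      { nonempty := ⟨QuoB 0, inferInstance, QuoB_cls 0⟩
        finite := fun G _ h => Cls_fin h
        soluble := fun G _ h => Cls_solvable h
        iso := fun G H _ _ ⟨e⟩ h => Cls_iso e h
        normal := fun G _ N hN h => Cls_normal (by norm_num) N hN h
        product := fun G _ _ N₁ N₂ h1 h2 h3 h4 =>
          Cls_sup (by norm_num) (by norm_num) N₁ N₂ h1 h2 h3 h4 }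
  · exact Cls_iso (QuotientGroup.quotientKerEquivOfSurjective (quo 0) (quo_surj 0)).symm
      (QuoB_cls 0)

end Pool.Agent.Results.MP_ddb4d7_al.CentralFrattini
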